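import Pool.Agent.Q88.MF.Stm

/-!
# Integrability of the power of the inverse Jacobian bound (job MF-ITA)
-/

set_option autoImplicit false

open Set MeasureTheory Filter Topology
open scoped ContDiff ENNReal NNReal

noncomputable section

namespace Pool.Agent.Q213.MF

open Pool.Agent.Q88.MF

theorem continuous_coord {d : ℕ} (i : Fin (d + 1)) : Continuous fun x : E (d + 1) => x i := by
  fun_prop

theorem continuous_rho {d : ℕ} : Continuous (rho : E (d + 1) → ℝ) := by
  unfold rho
  fun_prop

/-- The boxes. -/
def Bx (d : ℕ) (A B : ℝ) : Set (E (d + 1)) := {x | |x 0| ≤ A ∧ rho x ≤ B}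

theorem isClosed_Bx (d : ℕ) (A B : ℝ) : IsClosed (Bx d A B) :=
  (isClosed_le (continuous_coord 0).abs continuous_const).inter
    (isClosed_le continuous_rho continuous_const)

theorem rho_nonneg {d : ℕ} (x : E (d + 1)) : 0 ≤ rho x := norm_nonneg _

/-- Job ITA. -/
theorem ita (h : S_lev) (h1 : S_box) (h2 : S_kmo) (h3 : S_rat) : S_ita := by
  intro d a ha had
  have hd : d ≠ 0 := by
    rintro rfl
    norm_num at had
    linarith
  have ha0 : 0 < a := by linarith
  obtain ⟨hk1, hk2, hk3⟩ := h2 a ha
  set A : ℕ → ℝ := fun j => (1 + (j : ℝ)) ^ (-(1 / a)) with hA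
  set B : ℕ → ℝ := fun j => Real.exp (-(j : ℝ)) * (1 + (j : ℝ)) ^ (-(1 / a)) with hB
  have hA0 : ∀ j, 0 ≤ A j := fun j => Real.rpow_nonneg (by positivity) _
  have hB0 : ∀ j, 0 ≤ B j := fun j => mul_nonneg (Real.exp_pos _).le (hA0 j)
  set c : ℕ → ℝ := fun j => Real.exp (((j : ℝ) + 1) * d) with hc
  set g : E (d + 1) → ℝ≥0∞ := fun x =>
    ∑' j : ℕ, (Bx d (A j) (B j)).indicator (fun _ => ENNReal.ofReal (c j)) x with hg
  have hgm : Measurable g := by
    refine Measurable.ennreal_tsum fun j => ?_
    exact measurable_const.indicator (isClosed_Bx d _ _).measurableSet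
  -- the pointwise bound
  have hpt : ∀ x ∈ {x : E (d + 1) | P a (x 0) (rho x) < 1},
      ENNReal.ofReal ((1 / P a (x 0) (rho x)) ^ d) ≤ g x := by
    intro x hx
    have hx1 : P a (x 0) (rho x) < 1 := hx
    have hP0 : 0 ≤ P a (x 0) (rho x) := le_trans (hk1 (rho x)).1 (le_max_right _ _)
    rcases hP0.eq_or_lt with hz | hpos
    · rw [← hz]
      simp [hd]
    · set p := P a (x 0) (rho x) with hp
      have hlog : 0 ≤ - Real.log p := by
        have := Real.log_nonpos hpos.le hx1.le
        linarith
      set j : ℕ := ⌊- Real.log p⌋₊ with hj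
      have hj1 : (j : ℝ) ≤ - Real.log p := Nat.floor_le hlog
      have hj2 : - Real.log p < (j : ℝ) + 1 := Nat.lt_floor_add_one _
      have hle : p ≤ Real.exp (-(j : ℝ)) := by
        rw [← Real.log_le_iff_le_exp hpos]
        linarith
      have hxB : x ∈ Bx d (A j) (B j) := by
        rcases Nat.eq_zero_or_pos j with h0 | hjpos
        · rw [h0]
          have hA00 : A 0 = 1 := by simp [hA]
          have hB00 : B 0 = 1 := by simp [hB]
          rw [hA00, hB00]
          constructor
          · by_contra hcon
            rw [not_le] at hcon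
            have hm : mf a |x 0| / |x 0| = 1 := by
              unfold mf
              rw [if_neg (by linarith), if_neg (by linarith)]
              exact div_self (by linarith)
            have : 1 ≤ p := by
              rw [hp]
              unfold P
              rw [hm]
              exact le_max_left _ _
            linarith
          · by_contra hcon
            rw [not_le] at hcon
            have hm : kap a (rho x) = 1 := by
              unfold kap
              rw [if_neg (by linarith), if_neg (by linarith)]
            have : 1 ≤ p := by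
              rw [hp]
              unfold P
              rw [hm]
              exact le_max_right _ _
            linarith
        · obtain ⟨q1, q2⟩ := h a (x 0) (rho x) j ha (rho_nonneg x) hjpos hle
          exact ⟨q1, q2⟩
      refine le_trans ?_ (ENNReal.le_tsum j)
      rw [Set.indicator_of_mem hxB]
      apply ENNReal.ofReal_le_ofReal
      have h5 : 1 / p ≤ Real.exp ((j : ℝ) + 1) := by
        rw [div_le_iff₀ hpos]
        have h6 : Real.exp ((j : ℝ) + 1) * p = Real.exp ((j : ℝ) + 1 + Real.log p) := by
          rw [Real.exp_add _ (Real.log p), Real.exp_log hpos]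
        rw [h6]
        apply Real.one_le_exp
        linarith
      calc (1 / p) ^ d ≤ (Real.exp ((j : ℝ) + 1)) ^ d :=
            pow_le_pow_left₀ (by positivity) h5 d
        _ = c j := by
            rw [hc, ← Real.exp_nat_mul]
            congr 1
            ring
  refine lt_of_le_of_lt (setLIntegral_mono hgm hpt) ?_
  refine lt_of_le_of_lt (setLIntegral_le_lintegral _ _) ?_
  rw [hg, lintegral_tsum fun j =>
    (measurable_const.indicator (isClosed_Bx d _ _).measurableSet).aemeasurable]
  have hterm : ∀ j : ℕ, ∫⁻ x : E (d + 1), (Bx d (A j) (B j)).indicator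
      (fun _ => ENNReal.ofReal (c j)) x ≤
      ENNReal.ofReal (2 ^ (d + 1) * Real.exp d * ((j : ℝ) + 1) ^ (-((d + 1 : ℝ) / a))) := by
    intro j
    rw [lintegral_indicator (isClosed_Bx d _ _).measurableSet, setLIntegral_const]
    have hv := h1 d (A j) (B j) (hA0 j) (hB0 j)
    calc ENNReal.ofReal (c j) * volume (Bx d (A j) (B j))
        ≤ ENNReal.ofReal (c j) * ENNReal.ofReal (2 * A j * (2 * B j) ^ d) :=
          mul_le_mul_right hv _
      _ = ENNReal.ofReal (c j * (2 * A j * (2 * B j) ^ d)) :=
          (ENNReal.ofReal_mul (Real.exp_pos _).le).symm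
      _ = ENNReal.ofReal (2 ^ (d + 1) * Real.exp d * ((j : ℝ) + 1) ^ (-((d + 1 : ℝ) / a))) := by
          congr 1
          have hj0 : (0 : ℝ) < (j : ℝ) + 1 := by positivity
          have e1 : A j ^ (d + 1) = ((j : ℝ) + 1) ^ (-((d + 1 : ℝ) / a)) := by
            simp only [hA]
            rw [← Real.rpow_natCast, ← Real.rpow_mul (by positivity), add_comm (1 : ℝ)]
            congr 1
            push_cast
            ring
          have e2 : c j * Real.exp (-(j : ℝ)) ^ d = Real.exp d := by
            simp only [hc]
            rw [← Real.exp_nat_mul, ← Real.exp_add]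
            congr 1
            ring
          have e3 : B j = Real.exp (-(j : ℝ)) * A j := rfl
          rw [e3, ← e1, ← e2]
          rw [mul_pow, mul_pow, pow_succ, pow_succ]
          ring
  refine lt_of_le_of_lt (ENNReal.tsum_le_tsum hterm) ?_
  have hsum : Summable fun j : ℕ =>
      2 ^ (d + 1) * Real.exp d * ((j : ℝ) + 1) ^ (-((d + 1 : ℝ) / a)) := by
    apply Summable.mul_left
    have h6 : Summable fun n : ℕ => (n : ℝ) ^ (-((d + 1 : ℝ) / a)) := by
      rw [Real.summable_nat_rpow]
      have : 1 < (d + 1 : ℝ) / a := by
        rw [lt_div_iff₀ ha0]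
        linarith
      linarith
    have h7 := (summable_nat_add_iff 1).2 h6
    simpa using h7
  rw [← ENNReal.ofReal_tsum_of_nonneg (fun j => by positivity) hsum]
  exact ENNReal.ofReal_lt_top

end Pool.Agent.Q213.MF
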