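import Pool.Agent.Q88.MF.Stm

/-!
# The derivative of a Lipschitz map is its weak derivative (job MF-WDE)
-/

set_option autoImplicit false

open Set MeasureTheory Filter Topology
open scoped ContDiff ENNReal NNReal

noncomputable section

namespace Pool.Agent.Q213.MF

open Pool.Agent.Q88.MF

theorem integrable_smul_bdd {n : ℕ} (φ : E n → ℝ) (hφ : Continuous φ) (hc : HasCompactSupport φ)
    (G : E n → E n) (hG : AEStronglyMeasurable G) (K : ℝ) (hK : ∀ x, ‖G x‖ ≤ K) :
    Integrable (fun x => φ x • G x) := by
  refine Integrable.mono' ((hφ.integrable_of_hasCompactSupport hc).norm.mul_const K)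
    (hφ.aestronglyMeasurable.smul hG) (Filter.Eventually.of_forall fun x => ?_)
  rw [norm_smul]
  exact mul_le_mul_of_nonneg_left (hK x) (norm_nonneg _)

/-- Job WDE. -/
theorem wde : S_wde := by
  intro n f L hf
  have hbd : ∀ x, ‖fderiv ℝ f x‖ ≤ L := fun x => norm_fderiv_le_of_lipschitz ℝ hf
  have hmeas : Measurable (fderiv ℝ f) := measurable_fderiv ℝ f
  refine ⟨?_, ?_, ?_⟩
  · rw [locallyIntegrableOn_univ]
    exact hf.continuous.locallyIntegrable
  · rw [locallyIntegrableOn_univ]
    refine (locallyIntegrable_const (L : ℝ)).mono hmeas.aestronglyMeasurable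
      (Filter.Eventually.of_forall fun x => ?_)
    exact (hbd x).trans (le_abs_self _)
  · intro φ hφ hc _ v
    obtain ⟨C, hφL⟩ : ∃ C, LipschitzWith C φ :=
      ContDiff.lipschitzWith_of_hasCompactSupport hc hφ (by simp)
    have hφ' : ∀ x, DifferentiableAt ℝ φ x := fun x => (hφ.differentiable (by simp)) x
    have hcd : Continuous fun x => fderiv ℝ φ x v :=
      (hφ.continuous_fderiv (by simp)).clm_apply continuous_const
    have hcc : HasCompactSupport fun x => fderiv ℝ φ x v :=
      (hc.fderiv (𝕜 := ℝ)).comp_left (g := fun T : E n →L[ℝ] ℝ => T v) rfl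
    have hint1 : Integrable (fun x => φ x • fderiv ℝ f x v) := by
      refine integrable_smul_bdd φ hφ.continuous hc _
        (measurable_fderiv_apply_const ℝ f v).aestronglyMeasurable (L * ‖v‖) fun x => ?_
      exact (ContinuousLinearMap.le_opNorm _ _).trans
        (mul_le_mul_of_nonneg_right (hbd x) (norm_nonneg _))
    have hint2 : Integrable (fun x => (fderiv ℝ φ x v) • f x) :=
      (hcd.smul hf.continuous).integrable_of_hasCompactSupport hcc.smul_right
    ext i
    have e1 : (∫ x, φ x • fderiv ℝ f x v) i = ∫ x, φ x * (fderiv ℝ f x v) i := by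
      have := (EuclideanSpace.proj (𝕜 := ℝ) i).integral_comp_comm hint1
      simpa using this.symm
    have e2 : (- ∫ x, (fderiv ℝ φ x v) • f x) i = - ∫ x, (fderiv ℝ φ x v) * f x i := by
      have := (EuclideanSpace.proj (𝕜 := ℝ) i).integral_comp_comm hint2
      have h2 : (- ∫ x, (fderiv ℝ φ x v) • f x) i = - ((∫ x, (fderiv ℝ φ x v) • f x) i) := rfl
      rw [h2, neg_inj]
      simpa using this.symm
    rw [e1, e2]
    have hfi : LipschitzWith L fun x => f x i := by
      have h3 : LipschitzWith 1 fun y : E n => y i := by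
        refine LipschitzWith.of_dist_le_mul fun y z => ?_
        rw [NNReal.coe_one, one_mul, Real.dist_eq, dist_eq_norm]
        have := PiLp.norm_apply_le (y - z) i
        simpa using this
      have := h3.comp hf
      rwa [one_mul] at this
    have hib := hfi.integral_lineDeriv_mul_eq (μ := volume) hφL hc v
    have e3 : ∫ x, lineDeriv ℝ (fun x => f x i) x v * φ x = ∫ x, φ x * (fderiv ℝ f x v) i := by
      refine integral_congr_ae ?_
      filter_upwards [hf.ae_differentiableAt (μ := volume)] with x hx
      have h4 : HasFDerivAt (fun y => f y i)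
          ((EuclideanSpace.proj (𝕜 := ℝ) i).comp (fderiv ℝ f x)) x :=
        (EuclideanSpace.proj (𝕜 := ℝ) i).hasFDerivAt.comp x hx.hasFDerivAt
      rw [h4.differentiableAt.lineDeriv_eq_fderiv, h4.fderiv, mul_comm]
      rfl
    have e4 : ∫ x, lineDeriv ℝ φ x (-v) * f x i = - ∫ x, (fderiv ℝ φ x v) * f x i := by
      rw [← integral_neg]
      refine integral_congr_ae (Filter.Eventually.of_forall fun x => ?_)
      simp only
      rw [(hφ' x).lineDeriv_eq_fderiv, map_neg]
      ring
    rw [← e3, hib, e4]

end Pool.Agent.Q213.MF
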